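import Mathlib

/-!
# Products of total domination numbers over factorizations of `K_n` (MP_1ce445_co)

For `n ≥ 7`, `3 ≤ k ≤ n - 2`, and every `k`-factorization `G_1 ⊕ ... ⊕ G_k = K_n` with minimum
degrees at least one we prove

* `(n - 1) (n - k) ≤ ∑ j, (n + 1 - γ_t(G_j))²`;
* the product of the `γ_t(G_j)` is never equal to `((1 - 1/k) (n + 1))^k`, i.e. the known upper
  bound for `P(n, k)` is never attained;
* `P(n, k) ≤ (n + 1)^k exp(-2 (n - 1) (n - k) / (n + 1)²)`;
* `P(n, k) ≤ R^k exp(-((n - 1)(n - k) - (n + 1)²/k - 6 R + 4 (n + 1)/k) / (3 R²))` with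
  `R = (1 - 1/k)(n + 1)`; so the known bound `R^k` is improved by a constant factor for all
  `k ≤ (1 - ε) n`, `n` large;
* `P(n, k) ≤ (n - 1)^k` for odd `n` (smaller than `R^k` if `k > (n + 1)/2`).

Ideas.  For any vertex set `D`, `γ_t(G) ≤ |D| + n - |N(D)|` (`partial_dom`).  Starting from a
vertex of maximum degree, add vertices that bring at least two new neighbours; for the maximal
`D` every vertex has at most one neighbour outside `N(D)`, which bounds the degree sum by
`n - 1 + (n + 1 - γ_t)²` (`edge_bound`).  Sum over the factors.  Equality in the known bound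
forces `k ∣ n + 1`, say `n + 1 = k d`, and the product is then `((k - 1) d)^k`; together with
the quadratic constraint and `1 - y ≤ exp(-y - y²/3)` on `[-1/2, 1]` this is impossible except
for a few small pairs, which are excluded by divisibility.
-/

open Finset

namespace Pool.Agent.Results.MP_1ce445_co.ProductBoundImproved

/-- `S` is a total dominating set of `G`: every vertex has a neighbour in `S`. -/
def IsTotalDominating {V : Type*} (G : SimpleGraph V) (S : Finset V) : Prop :=
  ∀ v, ∃ u ∈ S, G.Adj v u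

/-- The total domination number: the least size of a total dominating set. -/
noncomputable def totalDominationNumber {V : Type*} (G : SimpleGraph V) : ℕ :=
  sInf {m | ∃ S : Finset V, IsTotalDominating G S ∧ S.card = m}

/-- `G 0, ..., G (k-1)` is a `k`-factorization of the complete graph on `Fin n` in which every
factor has minimum degree at least one. -/
structure IsFactorization {n k : ℕ} (G : Fin k → SimpleGraph (Fin n)) : Prop where
  factor : ∀ x y : Fin n, x ≠ y → ∃! j, (G j).Adj x y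
  minDeg : ∀ j, ∀ v, ∃ u, (G j).Adj v u

open Classical in
lemma partial_dom {n : ℕ} (G : SimpleGraph (Fin n)) (h : ∀ v, ∃ u, G.Adj v u)
    (D : Finset (Fin n)) :
    (univ.filter (fun v => ∃ u ∈ D, G.Adj v u)).card + totalDominationNumber G
      ≤ D.card + n := by
  choose f hf using h
  set N := univ.filter (fun v => ∃ u ∈ D, G.Adj v u) with hN
  have h1 : totalDominationNumber G ≤ (D ∪ (Nᶜ).image f).card := by
    apply Nat.sInf_le
    refine ⟨_, ?_, rfl⟩
    intro v
    by_cases hv : v ∈ N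
    · rw [hN, mem_filter] at hv
      obtain ⟨-, u, hu, huv⟩ := hv
      exact ⟨u, mem_union_left _ hu, huv⟩
    · exact ⟨f v, mem_union_right _ (mem_image_of_mem f (mem_compl.2 hv)), hf v⟩
  have h2 : (D ∪ (Nᶜ).image f).card ≤ D.card + (Nᶜ).card :=
    (card_union_le _ _).trans (Nat.add_le_add_left card_image_le _)
  have h3 : N.card + (Nᶜ).card = n := by rw [card_add_card_compl]; simp
  omega

open Classical in
lemma edge_bound {n : ℕ} (hn : 0 < n) (G : SimpleGraph (Fin n)) (h : ∀ v, ∃ u, G.Adj v u) :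
    (((∑ v, (univ.filter (fun u => G.Adj v u)).card : ℕ)) : ℤ)
      ≤ n - 1 + ((n:ℤ) + 1 - totalDominationNumber G)^2 := by
  obtain ⟨v₁, -, hv₁⟩ := exists_max_image (univ : Finset (Fin n))
    (fun v => (univ.filter (fun u => G.Adj v u)).card) ⟨⟨0, hn⟩, mem_univ _⟩
  set Δ := (univ.filter (fun u => G.Adj v₁ u)).card with hΔ
  let Nb : Finset (Fin n) → Finset (Fin n) := fun D => univ.filter (fun v => ∃ u ∈ D, G.Adj v u)
  have hv1mem : {v₁} ∈ (univ : Finset (Finset (Fin n))).filter
      (fun D => Δ + 2 * D.card ≤ (Nb D).card + 2) := by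
    simp only [mem_filter, mem_univ, true_and, card_singleton]
    have : Nb {v₁} = univ.filter (fun u => G.Adj v₁ u) := by
      ext v; simp [Nb, G.adj_comm]
    rw [this]
  obtain ⟨D, hD, hmax⟩ := exists_max_image ((univ : Finset (Finset (Fin n))).filter
    (fun D => Δ + 2 * D.card ≤ (Nb D).card + 2)) card ⟨{v₁}, hv1mem⟩
  have hDpos : 1 ≤ D.card := by
    have := hmax _ hv1mem
    rwa [card_singleton] at this
  have hD' : Δ + 2 * D.card ≤ (Nb D).card + 2 := by simpa using hD
  have key : ∀ u, ((univ.filter (fun v => G.Adj u v)) \ Nb D).card ≤ 1 := by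
    intro u
    by_contra hc
    push Not at hc
    by_cases hu : u ∈ D
    · have : (univ.filter (fun v => G.Adj u v)) \ Nb D = ∅ := by
        rw [sdiff_eq_empty_iff_subset]
        intro v hv
        rw [mem_filter] at hv
        exact mem_filter.2 ⟨mem_univ _, u, hu, hv.2.symm⟩
      rw [this] at hc; simp at hc
    · have h1 := hmax (insert u D) (by
        simp only [mem_filter, mem_univ, true_and]
        rw [card_insert_of_notMem hu]
        have : Nb (insert u D) = Nb D ∪ ((univ.filter (fun v => G.Adj u v)) \ Nb D) := by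
          ext v
          simp only [Nb, mem_filter, mem_univ, true_and, mem_union, mem_sdiff, mem_insert,
            exists_eq_or_imp]
          constructor
          · rintro (h1 | h1)
            · by_cases h2 : ∃ u ∈ D, G.Adj v u
              · exact Or.inl h2
              · exact Or.inr ⟨h1.symm, h2⟩
            · exact Or.inl h1
          · rintro (h1 | h1)
            · exact Or.inr h1
            · exact Or.inl h1.1.symm
        rw [this, card_union_of_disjoint disjoint_sdiff]
        omega)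
      rw [card_insert_of_notMem hu] at h1
      omega
  have key2 : ∑ u, ((univ.filter (fun v => G.Adj u v)) \ Nb D).card + D.card ≤ n := by
    have k1 : D.card = ∑ u : Fin n, if u ∈ D then 1 else 0 := by simp
    rw [k1, ← sum_add_distrib]
    calc _ ≤ ∑ u : Fin n, 1 := by
          apply sum_le_sum
          intro u _
          by_cases hu : u ∈ D
          · have : (univ.filter (fun v => G.Adj u v)) \ Nb D = ∅ := by
              rw [sdiff_eq_empty_iff_subset]
              intro v hv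
              rw [mem_filter] at hv
              exact mem_filter.2 ⟨mem_univ _, u, hu, hv.2.symm⟩
            rw [this]; simp [hu]
          · simp only [hu, if_false, add_zero]; exact key u
      _ = n := by simp
  have hsum : ∑ u, (univ.filter (fun v => G.Adj u v)).card ≤ (Nb D).card * Δ + (n - D.card) := by
    calc ∑ u, (univ.filter (fun v => G.Adj u v)).card
        = ∑ u, (((univ.filter (fun v => G.Adj u v)) ∩ Nb D).card
            + ((univ.filter (fun v => G.Adj u v)) \ Nb D).card) := by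
          apply sum_congr rfl; intro u _; rw [card_inter_add_card_sdiff]
      _ = ∑ u, ((univ.filter (fun v => G.Adj u v)) ∩ Nb D).card
            + ∑ u, ((univ.filter (fun v => G.Adj u v)) \ Nb D).card := sum_add_distrib
      _ ≤ (Nb D).card * Δ + (n - D.card) := by
        apply add_le_add
        · have e0 : ∑ u, ((univ.filter (fun v => G.Adj u v)) ∩ Nb D).card
              = ∑ x ∈ Nb D, (univ.filter (fun v => G.Adj x v)).card := by
            have e1 : ∀ u, ((univ.filter (fun v => G.Adj u v)) ∩ Nb D).card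
                = ∑ x ∈ Nb D, if G.Adj u x then 1 else 0 := by
              intro u
              rw [← card_filter]
              congr 1
              ext x; simp [and_comm]
            have e2 : ∀ x, (univ.filter (fun v => G.Adj x v)).card
                = ∑ u, if G.Adj u x then 1 else 0 := by
              intro x
              rw [← card_filter]
              congr 1
              ext u; simp [G.adj_comm]
            rw [sum_congr rfl (fun u _ => e1 u), sum_congr rfl (fun x _ => e2 x), sum_comm]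
          rw [e0]
          exact (sum_le_card_nsmul _ _ _ (fun x _ => hv₁ x (mem_univ _))).trans (by simp)
        · omega
  have hA := partial_dom G h D
  change (Nb D).card + totalDominationNumber G ≤ D.card + n at hA
  have hsumZ : (((∑ u, (univ.filter (fun v => G.Adj u v)).card : ℕ)) : ℤ)
      ≤ ((Nb D).card : ℤ) * Δ + (n - 1) := by
    have h9 : ∑ u, (univ.filter (fun v => G.Adj u v)).card ≤ (Nb D).card * Δ + (n - 1) := by
      omega
    have h10 : ((n - 1 : ℕ) : ℤ) = (n:ℤ) - 1 := by omega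
    rw [← h10]
    exact_mod_cast h9
  have hAZ : ((Nb D).card : ℤ) + totalDominationNumber G ≤ D.card + n := by exact_mod_cast hA
  have hDZ : (Δ : ℤ) + 2 * D.card ≤ (Nb D).card + 2 := by exact_mod_cast hD'
  have hΔ0 : (0:ℤ) ≤ Δ := by positivity
  set m : ℤ := (n:ℤ) + 1 - totalDominationNumber G with hm
  have hN : ((Nb D).card : ℤ) ≤ 2 * m - Δ := by rw [hm]; linarith
  nlinarith [sq_nonneg (m - Δ), mul_nonneg hΔ0 (sub_nonneg.2 hN)]

open Classical in
lemma sum_degrees {n k : ℕ} (G : Fin k → SimpleGraph (Fin n))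
    (hG : IsFactorization G) :
    ∑ j, ∑ v, (univ.filter (fun u => (G j).Adj v u)).card = n * (n - 1) := by
  rw [sum_comm]
  have h1 : ∀ v : Fin n, ∑ j, (univ.filter (fun u => (G j).Adj v u)).card = n - 1 := by
    intro v
    have : ∀ j, (univ.filter (fun u => (G j).Adj v u)).card
        = ∑ u, if (G j).Adj v u then 1 else 0 := fun j => by rw [← card_filter]
    rw [sum_congr rfl (fun j _ => this j), sum_comm]
    have h2 : ∀ u : Fin n, (∑ j, if (G j).Adj v u then 1 else 0) = if u = v then 0 else 1 := by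
      intro u
      split_ifs with huv
      · subst huv; simp
      · obtain ⟨j, hj, hju⟩ := hG.factor v u (Ne.symm huv)
        rw [← card_filter]
        rw [card_eq_one]
        exact ⟨j, by ext i; simp; exact ⟨fun hi => hju i hi, fun hi => hi ▸ hj⟩⟩
    rw [sum_congr rfl (fun u _ => h2 u)]
    have : (∑ u : Fin n, if u = v then 0 else 1) = (univ.filter (fun u => ¬ (u = v))).card := by
      rw [card_filter]; apply sum_congr rfl; intro u _; split_ifs <;> simp_all
    rw [this]
    have h3 : univ.filter (fun u : Fin n => ¬ (u = v)) = univ.erase v := by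
      ext u; simp
    rw [h3, card_erase_of_mem (mem_univ _)]; simp
  rw [sum_congr rfl (fun v _ => h1 v)]; simp

/-- The quadratic constraint. -/
theorem quad' {n k : ℕ} (hn : 0 < n) (G : Fin k → SimpleGraph (Fin n))
    (hG : IsFactorization G) :
    ((n:ℤ) - 1) * (n - k) ≤ ∑ j, ((n:ℤ) + 1 - totalDominationNumber (G j))^2 := by
  classical
  have h1 := sum_degrees G hG
  have h2 : ((∑ j, ∑ v, (univ.filter (fun u => (G j).Adj v u)).card : ℕ) : ℤ)
      ≤ ∑ j, ((n:ℤ) - 1 + ((n:ℤ) + 1 - totalDominationNumber (G j))^2) := by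
    rw [Nat.cast_sum]
    exact sum_le_sum (fun j _ => edge_bound hn (G j) (hG.minDeg j))
  rw [h1, sum_add_distrib] at h2
  simp only [sum_const, card_univ, Fintype.card_fin, nsmul_eq_mul] at h2
  have h3 : ((n * (n - 1) : ℕ) : ℤ) = (n:ℤ) * (n - 1) := by
    rw [Nat.cast_mul, Nat.cast_sub hn]; simp
  rw [h3] at h2
  nlinarith

theorem quad {n k : ℕ} (hn : 0 < n) (G : Fin k → SimpleGraph (Fin n))
    (hG : IsFactorization G) :
    (n:ℤ) * (n - 1 - k) ≤ ∑ j, ((n:ℤ) + 1 - totalDominationNumber (G j))^2 := by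
  have h1 := quad' hn G hG
  nlinarith

lemma q_nonneg (x : ℝ) (h0 : 0 ≤ x) (h1 : x ≤ 1) : 0 ≤ 1 - 2*x + 1.5*x^3 - 0.5*x^5 + x^7/16 := by
  nlinarith [mul_nonneg h0 (sq_nonneg (x-0.81)), mul_nonneg h0 (sq_nonneg (x^2-0.66)), mul_nonneg h0 (sq_nonneg (x^3-0.53)), mul_nonneg h0 (sq_nonneg (x*(x-0.81))), sq_nonneg (x-0.81), sq_nonneg (x^2-0.656), mul_nonneg h0 (sub_nonneg.2 h1), pow_nonneg h0 3, pow_nonneg h0 5]

lemma exp_ineq2 (y : ℝ) (h0 : -(1/2) ≤ y) (h1 : y ≤ 1) : 1 - y ≤ Real.exp (-y - y^2/3) := by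
  rcases le_total 0 y with h | h
  · -- y ≥ 0
    set z := y + y^2/3 with hz
    have e1 : 1 - z/4 ≤ Real.exp (-(z/4)) := Real.one_sub_le_exp_neg _
    have e2 : Real.exp (-y - y^2/3) = (Real.exp (-(z/4)))^4 := by
      rw [← Real.exp_nat_mul]; congr 1; rw [hz]; push_cast; ring
    have hz0 : 0 ≤ z := by positivity
    have hz1 : z ≤ 4/3 := by rw [hz]; nlinarith
    have e3 : (1 - z/4)^4 ≤ (Real.exp (-(z/4)))^4 := by
      apply pow_le_pow_left₀ _ e1; linarith
    rw [e2]
    refine le_trans ?_ e3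
    have e4 : (1 - z/4)^4 ≥ 1 - z + 3*z^2/8 - z^3/16 := by nlinarith [sq_nonneg (z^2)]
    refine le_trans ?_ e4
    have e5 : (1 + y/3)^3 ≤ 64/27 := by
      have : (1 + y/3)^3 ≤ (4/3)^3 := by apply pow_le_pow_left₀ <;> linarith
      linarith
    have e6 : 1 - z + 3*z^2/8 - z^3/16 - (1-y) = y^2 * (1/24 + y/4 + y^2/24 - (y/16)*(1+y/3)^3) := by
      rw [hz]; ring
    have e7 : (y/16)*(1+y/3)^3 ≤ (y/16)*(64/27) := by
      apply mul_le_mul_of_nonneg_left e5; positivity
    have e8 : 0 ≤ y^2 * (1/24 + y/4 + y^2/24 - (y/16)*(1+y/3)^3) := by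
      apply mul_nonneg (sq_nonneg _)
      nlinarith [sq_nonneg y]
    linarith
  · -- y ≤ 0
    have hw : 0 ≤ -y - y^2/3 := by nlinarith
    have e1 := Real.quadratic_le_exp_of_nonneg hw
    refine le_trans ?_ e1
    have e2 : (1 + (-y - y^2/3) + (-y - y^2/3)^2/2) - (1 - y) = y^2 * (1/6 + y/3 + y^2/18) := by ring
    have e3 : 0 ≤ y^2 * (1/6 + y/3 + y^2/18) := by
      apply mul_nonneg (sq_nonneg _); nlinarith [sq_nonneg y]
    linarith

lemma exp_ineq (x : ℝ) (h0 : 0 ≤ x) (h1 : x ≤ 1) : 1 - x ≤ Real.exp (-(2*x^2)) := by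
  have e1 : 1 - x^2/2 ≤ Real.exp (-(x^2/2)) := Real.one_sub_le_exp_neg _
  have e2 : Real.exp (-(2*x^2)) = (Real.exp (-(x^2/2)))^4 := by
    rw [← Real.exp_nat_mul]; congr 1; push_cast; ring
  have e3 : (1 - x^2/2)^4 ≤ (Real.exp (-(x^2/2)))^4 := by
    apply pow_le_pow_left₀ _ e1; nlinarith
  rw [e2]
  refine le_trans ?_ e3
  have e4 : (1 - x^2/2)^4 - (1 - x) = x * (1 - 2*x + 1.5*x^3 - 0.5*x^5 + x^7/16) := by ring
  have e5 := mul_nonneg h0 (q_nonneg x h0 h1)
  linarith

lemma gamma_le {n : ℕ} (G : SimpleGraph (Fin n)) (h : ∀ v, ∃ u, G.Adj v u) :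
    totalDominationNumber G ≤ n := by
  classical
  have := partial_dom G h ∅
  simp only [card_empty] at this
  omega

open Classical in
lemma deg_bound {n : ℕ} (G : SimpleGraph (Fin n)) (h : ∀ v, ∃ u, G.Adj v u) (v : Fin n) :
    (univ.filter (fun u => G.Adj v u)).card + totalDominationNumber G ≤ n + 1 := by
  obtain ⟨w, hw⟩ := h v
  have h1 := partial_dom G h {v, w}
  have h2 : ({v, w} : Finset (Fin n)).card ≤ 2 := card_le_two
  have h3 : (insert v (univ.filter (fun u => G.Adj v u))).card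
      ≤ (univ.filter (fun x => ∃ u ∈ ({v, w} : Finset (Fin n)), G.Adj x u)).card := by
    apply card_le_card
    intro x hx
    rw [mem_insert, mem_filter] at hx
    rw [mem_filter]
    rcases hx with rfl | hx
    · exact ⟨mem_univ _, w, by simp, hw⟩
    · exact ⟨mem_univ _, v, by simp, hx.2.symm⟩
  rw [card_insert_of_notMem (by simp)] at h3
  omega

open Classical in
lemma sum_deg_vertex {n k : ℕ} (G : Fin k → SimpleGraph (Fin n))
    (hG : IsFactorization G) (v : Fin n) :
    ∑ j, (univ.filter (fun u => (G j).Adj v u)).card = n - 1 := by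
  have : ∀ j, (univ.filter (fun u => (G j).Adj v u)).card
      = ∑ u, if (G j).Adj v u then 1 else 0 := fun j => by rw [← card_filter]
  rw [sum_congr rfl (fun j _ => this j), sum_comm]
  have h2 : ∀ u : Fin n, (∑ j, if (G j).Adj v u then 1 else 0) = if u = v then 0 else 1 := by
    intro u
    split_ifs with huv
    · subst huv; simp
    · obtain ⟨j, hj, hju⟩ := hG.factor v u (Ne.symm huv)
      rw [← card_filter]
      rw [card_eq_one]
      exact ⟨j, by ext i; simp; exact ⟨fun hi => hju i hi, fun hi => hi ▸ hj⟩⟩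
  rw [sum_congr rfl (fun u _ => h2 u)]
  have : (∑ u : Fin n, if u = v then 0 else 1) = (univ.filter (fun u => ¬ (u = v))).card := by
    rw [card_filter]; apply sum_congr rfl; intro u _; split_ifs <;> simp_all
  rw [this]
  have h3 : univ.filter (fun u : Fin n => ¬ (u = v)) = univ.erase v := by
    ext u; simp
  rw [h3, card_erase_of_mem (mem_univ _)]; simp

theorem prod_bound {n k : ℕ} (hn : 0 < n) (G : Fin k → SimpleGraph (Fin n))
    (hG : IsFactorization G) :
    ∏ j, (totalDominationNumber (G j) : ℝ)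
      ≤ ((n:ℝ) + 1)^k * Real.exp (-(2 * (n - 1) * (n - k) / ((n:ℝ)+1)^2)) := by
  have hq := quad' hn G hG
  have hqR : ((n:ℝ) - 1) * (n - k) ≤ ∑ j, ((n:ℝ) + 1 - totalDominationNumber (G j))^2 := by
    exact_mod_cast hq
  have hN : (0:ℝ) < (n:ℝ) + 1 := by positivity
  have h1 : ∀ j, (totalDominationNumber (G j) : ℝ) ≤ ((n:ℝ)+1) *
      Real.exp (-(2 * ((((n:ℝ)+1) - totalDominationNumber (G j))/((n:ℝ)+1))^2)) := by
    intro j
    have hg : (totalDominationNumber (G j) : ℝ) ≤ n := by
      exact_mod_cast gamma_le (G j) (hG.minDeg j)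
    have hg0 : (0:ℝ) ≤ totalDominationNumber (G j) := by positivity
    have h2 := exp_ineq ((((n:ℝ)+1) - totalDominationNumber (G j))/((n:ℝ)+1))
      (by apply div_nonneg <;> linarith) (by rw [div_le_one hN]; linarith)
    have e : 1 - (((n:ℝ)+1) - totalDominationNumber (G j))/((n:ℝ)+1)
        = totalDominationNumber (G j)/((n:ℝ)+1) := by field_simp; ring
    rw [e, div_le_iff₀ hN] at h2
    linarith
  calc ∏ j, (totalDominationNumber (G j) : ℝ)
      ≤ ∏ j : Fin k, (((n:ℝ)+1) *
        Real.exp (-(2 * ((((n:ℝ)+1) - totalDominationNumber (G j))/((n:ℝ)+1))^2))) :=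
        prod_le_prod (fun j _ => by positivity) (fun j _ => h1 j)
    _ = ((n:ℝ)+1)^k *
        Real.exp (∑ j, -(2 * ((((n:ℝ)+1) - totalDominationNumber (G j))/((n:ℝ)+1))^2)) := by
        rw [prod_mul_distrib, Real.exp_sum]; simp
    _ ≤ _ := by
        apply mul_le_mul_of_nonneg_left _ (by positivity)
        apply Real.exp_le_exp.2
        rw [sum_neg_distrib, neg_le_neg_iff]
        have : ∑ j, 2 * ((((n:ℝ)+1) - totalDominationNumber (G j))/((n:ℝ)+1))^2
            = 2 * (∑ j, ((n:ℝ) + 1 - totalDominationNumber (G j))^2) / ((n:ℝ)+1)^2 := by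
          rw [mul_sum, sum_div]; apply sum_congr rfl; intro j _; field_simp
        rw [this]
        apply div_le_div_of_nonneg_right _ (by positivity)
        nlinarith


lemma strict_general {k d n : ℕ} (hk : 3 ≤ k) (hd : 2 ≤ d) (hnd : n + 1 = k * d) (g : Fin k → ℕ)
    (hgn : ∀ j, g j ≤ n)
    (hprod : ∏ j, g j = ((k-1)*d)^k)
    (hquad : (n:ℤ) * (n - 1 - k) ≤ ∑ j, ((n:ℤ) + 1 - g j)^2)
    (hsum : (n:ℤ) - 1 ≤ ∑ j, ((n:ℤ) + 1 - g j))
    (hC : 0 < (k:ℤ)*(k-1)*d^2 - (k^2 + 9*k - 10)*d + k + 2) : False := by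
  set R : ℝ := ((k:ℝ)-1)*d with hR
  have hk' : (3:ℝ) ≤ k := by exact_mod_cast hk
  have hd' : (2:ℝ) ≤ d := by exact_mod_cast hd
  have hRpos : 0 < R := by rw [hR]; nlinarith
  have hnR : (n:ℝ) + 1 = k * d := by exact_mod_cast hnd
  have hprodR : ∏ j, (g j : ℝ) = R^k := by
    have h0 : ((∏ j, g j : ℕ) : ℝ) = ((((k-1)*d)^k : ℕ) : ℝ) := by rw [hprod]
    push_cast [Nat.cast_sub (show 1 ≤ k by omega)] at h0
    rw [h0, hR]
  have h1 : ∀ j, (g j : ℝ)/R ≤ Real.exp (-(1 - g j/R) - (1 - g j/R)^2/3) := by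
    intro j
    have hg : (g j : ℝ) ≤ n := by exact_mod_cast hgn j
    have hg1 : (g j : ℝ)/R ≤ 3/2 := by
      rw [div_le_iff₀ hRpos, hR]
      nlinarith [mul_nonneg (sub_nonneg.2 hk') (sub_nonneg.2 hd')]
    have hg0 : 0 ≤ (g j : ℝ)/R := by positivity
    have h := exp_ineq2 (1 - g j/R) (by linarith) (by linarith)
    linarith [h]
  have h2 : (1:ℝ) ≤ Real.exp (∑ j, (-(1 - g j/R) - (1 - g j/R)^2/3)) := by
    rw [Real.exp_sum]
    calc (1:ℝ) = ∏ j, ((g j : ℝ)/R) := by
          rw [prod_div_distrib, hprodR]; simp; rw [div_self]; positivity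
      _ ≤ _ := prod_le_prod (fun j _ => by positivity) (fun j _ => h1 j)
  have h3 : 0 ≤ ∑ j, (-(1 - g j/R) - (1 - g j/R)^2/3) := by
    by_contra hc
    push Not at hc
    have := Real.exp_lt_exp.2 hc
    rw [Real.exp_zero] at this
    linarith
  have h4 : ∑ j, (3*R*(R - g j) + (R - g j)^2) ≤ 0 := by
    have h5 : ∑ j, (3*R*(R - g j) + (R - g j)^2)
        = -((3*R^2) * ∑ j, (-(1 - g j/R) - (1 - g j/R)^2/3)) := by
      rw [mul_sum, ← sum_neg_distrib]; apply sum_congr rfl; intro j _; field_simp; ring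
    rw [h5]
    have : 0 ≤ (3*R^2) * ∑ j, (-(1 - g j/R) - (1 - g j/R)^2/3) := by positivity
    linarith
  have hquadR : (n:ℝ) * (n - 1 - k) ≤ ∑ j, ((n:ℝ) + 1 - g j)^2 := by exact_mod_cast hquad
  have hsumR : (n:ℝ) - 1 ≤ ∑ j, ((n:ℝ) + 1 - g j) := by exact_mod_cast hsum
  have hCR : 0 < (k:ℝ)*(k-1)*d^2 - (k^2 + 9*k - 10)*d + k + 2 := by exact_mod_cast hC
  have e1 : ∑ j, ((n:ℝ) + 1 - g j) = ∑ j, (R - g j) + k * d := by
    rw [hnR]
    have : ∀ j, (k:ℝ)*d - g j = (R - g j) + d := fun j => by rw [hR]; ring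
    rw [sum_congr rfl (fun j _ => this j), sum_add_distrib]; simp
  have e2 : ∑ j, ((n:ℝ) + 1 - g j)^2
      = ∑ j, (R - g j)^2 + 2*d*∑ j, (R - g j) + k * d^2 := by
    rw [hnR]
    have : ∀ j, ((k:ℝ)*d - g j)^2 = (R - g j)^2 + 2*d*(R - g j) + d^2 := fun j => by rw [hR]; ring
    rw [sum_congr rfl (fun j _ => this j), sum_add_distrib, sum_add_distrib, ← mul_sum]; simp
  have e3 : ∑ j, (3*R*(R - g j) + (R - g j)^2)
      = 3*R*∑ j, (R - g j) + ∑ j, (R - g j)^2 := by
    rw [sum_add_distrib, ← mul_sum]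
  rw [e1] at hsumR
  rw [e2] at hquadR
  rw [e3] at h4
  have hn' : (n:ℝ) = k*d - 1 := by linarith
  rw [hn'] at hsumR hquadR
  set X := ∑ j, (R - (g j:ℝ)) with hX
  set Y := ∑ j, (R - (g j:ℝ))^2 with hY
  have hX2 : -2 ≤ X := by linarith
  have hco : 0 ≤ 3*R - 2*d := by rw [hR]; nlinarith
  have h6 : 0 ≤ (3*R - 2*d)*(X+2) := mul_nonneg hco (by linarith)
  have h7 : (3*R - 2*d)*(-2) + ((k:ℝ)*d - 1) * ((k*d-1) - 1 - k) - k*d^2
      = (k:ℝ)*(k-1)*d^2 - (k^2 + 9*k - 10)*d + k + 2 := by rw [hR]; ring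
  nlinarith

lemma all_eq {k R : ℕ} (hR : 0 < R) (g : Fin k → ℕ) (hle : ∀ j, g j ≤ R)
    (hprod : ∏ j, g j = R^k) : ∀ j, g j = R := by
  by_contra hc
  push Not at hc
  obtain ⟨i, hi⟩ := hc
  have hpos : ∀ j, 0 < g j := by
    intro j
    rcases Nat.eq_zero_or_pos (g j) with h0 | h0
    · have h1 : ∏ j, g j = 0 := prod_eq_zero (mem_univ j) h0
      rw [hprod] at h1
      have : 0 < R^k := by positivity
      omega
    · exact h0
  have : ∏ j, g j < ∏ j : Fin k, R := prod_lt_prod (fun j _ => hpos j) (fun j _ => hle j)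
    ⟨i, mem_univ _, lt_of_le_of_ne (hle i) hi⟩
  rw [hprod] at this; simp at this

lemma numeric {k d n : ℕ} (hn : 7 ≤ n) (hk : 3 ≤ k) (hd : 2 ≤ d) (hnd : n + 1 = k * d)
    (g : Fin k → ℕ)
    (hgn : ∀ j, g j ≤ n)
    (hprod : ∏ j, g j = ((k-1)*d)^k)
    (hquad : (n:ℤ) * (n - 1 - k) ≤ ∑ j, ((n:ℤ) + 1 - g j)^2)
    (hC : ¬ 0 < (k:ℤ)*(k-1)*d^2 - (k^2 + 9*k - 10)*d + k + 2) :
    k = 4 ∧ d = 2 ∧ ∀ j, g j = 6 := by
  have h3 : (3:ℤ) ≤ k := by exact_mod_cast hk
  have h2 : (2:ℤ) ≤ d := by exact_mod_cast hd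
  have hd4 : d ≤ 4 := by
    by_contra hc
    push Not at hc
    apply hC
    have h5 : (5:ℤ) ≤ d := by exact_mod_cast hc
    have a1 : 0 ≤ ((k:ℤ)*(k-1))*(d-5) := by
      apply mul_nonneg (mul_nonneg (by linarith) (by linarith)) (by linarith)
    have a2 : 0 ≤ (2*(k:ℤ)-5)*(k-1) := mul_nonneg (by linarith) (by linarith)
    have a3 : 0 ≤ (d:ℤ) * ((k:ℤ)*(k-1)*d - (k^2+9*k-10)) := by
      apply mul_nonneg (by linarith); nlinarith
    nlinarith
  have hk9 : k ≤ 9 := by
    by_contra hc
    push Not at hc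
    apply hC
    have h5 : (10:ℤ) ≤ k := by exact_mod_cast hc
    have a1 : 0 ≤ ((k:ℤ)*(k-1))*(d-2) := by
      apply mul_nonneg (mul_nonneg (by linarith) (by linarith)) (by linarith)
    have a2 : 0 ≤ ((k:ℤ)-10)*(k-1) := mul_nonneg (by linarith) (by linarith)
    have a3 : 0 ≤ (d:ℤ) * ((k:ℤ)*(k-1)*d - (k^2+9*k-10)) := by
      apply mul_nonneg (by linarith); nlinarith
    nlinarith
  have hdiv : ∀ j, g j ∣ ((k-1)*d)^k := fun j => hprod ▸ dvd_prod_of_mem _ (mem_univ j)
  clear h3 h2
  interval_cases k <;> interval_cases d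
  · omega
  · -- (3,3)
    exfalso
    obtain rfl : n = 8 := by omega
    rw [Fin.prod_univ_three] at hprod
    rw [Fin.sum_univ_three] at hquad
    have key : ∀ a ≤ 8, ∀ b ≤ 8, ∀ c ≤ 8, a * b * c = 216 →
        (9 - a)^2 + (9-b)^2 + (9-c)^2 < 32 := by decide
    have k1 := key _ (hgn 0) _ (hgn 1) _ (hgn 2) (by simpa using hprod)
    have c1 : ∀ j, ((9 - g j : ℕ) : ℤ) = 9 - (g j : ℤ) := fun j => by
      have := hgn j; omega
    have k2 : (((9 - g 0)^2 + (9-g 1)^2 + (9-g 2)^2 : ℕ) : ℤ) < 32 := by exact_mod_cast k1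
    push_cast [c1] at k2
    norm_num at hquad
    linarith
  · -- (3,4)
    exfalso
    obtain rfl : n = 11 := by omega
    have key : ∀ x ≤ 11, x ∣ 8^3 → x ≤ 8 := by decide
    have h := all_eq (R := 8) (by norm_num) g (fun j => key _ (hgn j) (by simpa using hdiv j))
      (by simpa using hprod)
    simp only [h] at hquad; norm_num at hquad
  · -- (4,2)
    obtain rfl : n = 7 := by omega
    have key : ∀ x ≤ 7, x ∣ 6^4 → x ≤ 6 := by decide
    have h := all_eq (R := 6) (by norm_num) g (fun j => key _ (hgn j) (by simpa using hdiv j))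
      (by simpa using hprod)
    exact ⟨rfl, rfl, h⟩
  · -- (4,3)
    exfalso
    obtain rfl : n = 11 := by omega
    have key : ∀ x ≤ 11, x ∣ 9^4 → x ≤ 9 := by decide
    have h := all_eq (R := 9) (by norm_num) g (fun j => key _ (hgn j) (by simpa using hdiv j))
      (by simpa using hprod)
    simp only [h] at hquad; norm_num at hquad
  · exfalso; apply hC; norm_num
  · -- (5,2)
    exfalso
    obtain rfl : n = 9 := by omega
    have key : ∀ x ≤ 9, x ∣ 8^5 → x ≤ 8 := by decide
    have h := all_eq (R := 8) (by norm_num) g (fun j => key _ (hgn j) (by simpa using hdiv j))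
      (by simpa using hprod)
    simp only [h] at hquad; norm_num at hquad
  · exfalso; apply hC; norm_num
  · exfalso; apply hC; norm_num
  · -- (6,2)
    exfalso
    obtain rfl : n = 11 := by omega
    have key : ∀ x ≤ 11, x ∣ 10^6 → x ≤ 10 := by decide
    have h := all_eq (R := 10) (by norm_num) g (fun j => key _ (hgn j) (by simpa using hdiv j))
      (by simpa using hprod)
    simp only [h] at hquad; norm_num at hquad
  · exfalso; apply hC; norm_num
  · exfalso; apply hC; norm_num
  · -- (7,2)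
    exfalso
    obtain rfl : n = 13 := by omega
    have key : ∀ x ≤ 13, x ∣ 12^7 → x ≤ 12 := by decide
    have h := all_eq (R := 12) (by norm_num) g (fun j => key _ (hgn j) (by simpa using hdiv j))
      (by simpa using hprod)
    simp only [h] at hquad; norm_num at hquad
  · exfalso; apply hC; norm_num
  · exfalso; apply hC; norm_num
  · -- (8,2)
    exfalso
    obtain rfl : n = 15 := by omega
    have key : ∀ x ≤ 15, x ∣ 14^8 → x ≤ 14 := by decide
    have h := all_eq (R := 14) (by norm_num) g (fun j => key _ (hgn j) (by simpa using hdiv j))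
      (by simpa using hprod)
    simp only [h] at hquad; norm_num at hquad
  · exfalso; apply hC; norm_num
  · exfalso; apply hC; norm_num
  · -- (9,2)
    exfalso
    obtain rfl : n = 17 := by omega
    have key : ∀ x ≤ 17, x ∣ 16^9 → x ≤ 16 := by decide
    have h := all_eq (R := 16) (by norm_num) g (fun j => key _ (hgn j) (by simpa using hdiv j))
      (by simpa using hprod)
    simp only [h] at hquad; norm_num at hquad
  · exfalso; apply hC; norm_num
  · exfalso; apply hC; norm_num

theorem not_attained {n k : ℕ} (hn : 7 ≤ n) (hk : 3 ≤ k) (hkn : k + 2 ≤ n)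
    (G : Fin k → SimpleGraph (Fin n)) (hG : IsFactorization G) :
    (∏ j, (totalDominationNumber (G j) : ℝ)) ≠ ((1 - 1/(k:ℝ)) * ((n:ℝ)+1))^k := by
  classical
  intro heq
  set g : Fin k → ℕ := fun j => totalDominationNumber (G j) with hg
  have hkR : (0:ℝ) < k := by positivity
  have h1 : k^k * ∏ j, g j = ((k-1)*(n+1))^k := by
    have h0 : ((k^k * ∏ j, g j : ℕ) : ℝ) = ((((k-1)*(n+1))^k : ℕ) : ℝ) := by
      push_cast [Nat.cast_sub (show 1 ≤ k by omega)]
      rw [hg]
      simp only
      rw [heq, ← mul_pow]; congr 1; field_simp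
    exact_mod_cast h0
  have h2 : k ∣ (k-1)*(n+1) := (Nat.pow_dvd_pow_iff (by omega)).1 ⟨_, h1.symm⟩
  have h3 : k ∣ n+1 := by
    have hc : Nat.Coprime k (k-1) := by
      obtain ⟨m, rfl⟩ : ∃ m, k = m + 1 := ⟨k-1, by omega⟩
      simp
    exact hc.dvd_of_dvd_mul_left h2
  obtain ⟨d, hd⟩ := h3
  have h4 : ∏ j, g j = ((k-1)*d)^k := by
    rw [hd, show (k-1)*(k*d) = k*((k-1)*d) by ring, mul_pow] at h1
    exact Nat.eq_of_mul_eq_mul_left (by positivity) h1
  have hd2 : 2 ≤ d := by
    by_contra hc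
    push Not at hc
    interval_cases d <;> omega
  have hgn : ∀ j, g j ≤ n := fun j => gamma_le (G j) (hG.minDeg j)
  have hquad := quad (by omega) G hG
  change (n:ℤ) * (n - 1 - k) ≤ ∑ j, ((n:ℤ) + 1 - g j)^2 at hquad
  have hsum : (n:ℤ) - 1 ≤ ∑ j, ((n:ℤ) + 1 - g j) := by
    let v : Fin n := ⟨0, by omega⟩
    have e1 := sum_deg_vertex G hG v
    have e2 : ∀ j, (((univ.filter (fun u => (G j).Adj v u)).card : ℕ) : ℤ)
        ≤ (n:ℤ) + 1 - g j := by
      intro j
      have h5 := deg_bound (G j) (hG.minDeg j) v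
      change (univ.filter (fun u => (G j).Adj v u)).card + g j ≤ n + 1 at h5
      omega
    have e3 : ((∑ j, (univ.filter (fun u => (G j).Adj v u)).card : ℕ) : ℤ)
        ≤ ∑ j, ((n:ℤ) + 1 - g j) := by
      rw [Nat.cast_sum]; exact sum_le_sum (fun j _ => e2 j)
    rw [e1] at e3
    have : ((n - 1 : ℕ) : ℤ) = (n:ℤ) - 1 := by omega
    linarith
  by_cases hC : 0 < (k:ℤ)*(k-1)*d^2 - (k^2 + 9*k - 10)*d + k + 2
  · exact strict_general hk hd2 hd g hgn h4 hquad hsum hC
  · obtain ⟨hk4, hd2', hg6⟩ := numeric hn hk hd2 hd g hgn h4 hquad hC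
    subst hk4
    subst hd2'
    obtain rfl : n = 7 := by omega
    have h7 := sum_degrees G hG
    have h8 : ∀ j, ∑ v, (univ.filter (fun u => (G j).Adj v u)).card ≤ 10 := by
      intro j
      have h9 := edge_bound (by norm_num) (G j) (hG.minDeg j)
      have h10 : (totalDominationNumber (G j) : ℤ) = 6 := by exact_mod_cast hg6 j
      rw [h10] at h9
      norm_num at h9
      exact_mod_cast h9
    have h13 := sum_le_card_nsmul (univ : Finset (Fin 4)) _ 10 (fun j _ => h8 j)
    rw [h7] at h13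
    simp at h13

theorem prod_bound2 {n k : ℕ} (hn : 7 ≤ n) (hk : 3 ≤ k) (G : Fin k → SimpleGraph (Fin n))
    (hG : IsFactorization G) :
    ∏ j, (totalDominationNumber (G j) : ℝ) ≤ ((1 - 1/(k:ℝ)) * ((n:ℝ)+1))^k *
      Real.exp (-((((n:ℝ)-1)*(n-k) - ((n:ℝ)+1)^2/k - 6*((1 - 1/(k:ℝ)) * ((n:ℝ)+1))
        + 4*((n:ℝ)+1)/k) / (3*((1 - 1/(k:ℝ)) * ((n:ℝ)+1))^2))) := by
  classical
  have hgn : ∀ j, totalDominationNumber (G j) ≤ n := fun j => gamma_le (G j) (hG.minDeg j)
  have hquad := quad' (by omega : 0 < n) G hG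
  have hquadR : ((n:ℝ)-1) * (n - k) ≤ ∑ j, ((n:ℝ) + 1 - totalDominationNumber (G j))^2 := by
    exact_mod_cast hquad
  have hsum : (n:ℤ) - 1 ≤ ∑ j, ((n:ℤ) + 1 - totalDominationNumber (G j)) := by
    let v : Fin n := ⟨0, by omega⟩
    have e1 := sum_deg_vertex G hG v
    have e2 : ∀ j, (((univ.filter (fun u => (G j).Adj v u)).card : ℕ) : ℤ)
        ≤ (n:ℤ) + 1 - totalDominationNumber (G j) := by
      intro j
      have h5 := deg_bound (G j) (hG.minDeg j) v
      omega
    have e3 : ((∑ j, (univ.filter (fun u => (G j).Adj v u)).card : ℕ) : ℤ)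
        ≤ ∑ j, ((n:ℤ) + 1 - totalDominationNumber (G j)) := by
      rw [Nat.cast_sum]; exact sum_le_sum (fun j _ => e2 j)
    rw [e1] at e3
    have : ((n - 1 : ℕ) : ℤ) = (n:ℤ) - 1 := by omega
    linarith
  have hsumR : (n:ℝ) - 1 ≤ ∑ j, ((n:ℝ) + 1 - totalDominationNumber (G j)) := by
    exact_mod_cast hsum
  have hk' : (3:ℝ) ≤ k := by exact_mod_cast hk
  have hk0 : (k:ℝ) ≠ 0 := by positivity
  have hn' : (7:ℝ) ≤ n := by exact_mod_cast hn
  set R : ℝ := (1 - 1/(k:ℝ)) * ((n:ℝ)+1) with hR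
  have hinv : 1/(k:ℝ) ≤ 1/3 := by apply one_div_le_one_div_of_le <;> linarith
  have hRpos : 0 < R := by rw [hR]; apply mul_pos <;> linarith
  have hR32 : (n:ℝ) + 1 ≤ 3/2 * R := by rw [hR]; nlinarith
  have h1 : ∀ j, (totalDominationNumber (G j) : ℝ) ≤ R *
      Real.exp (-(1 - totalDominationNumber (G j)/R)
        - (1 - totalDominationNumber (G j)/R)^2/3) := by
    intro j
    have hgj : (totalDominationNumber (G j) : ℝ) ≤ n := by exact_mod_cast hgn j
    have hg1 : (totalDominationNumber (G j) : ℝ)/R ≤ 3/2 := by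
      rw [div_le_iff₀ hRpos]; linarith
    have hg0 : 0 ≤ (totalDominationNumber (G j) : ℝ)/R := by positivity
    have h := exp_ineq2 (1 - totalDominationNumber (G j)/R) (by linarith) (by linarith)
    have h' : (totalDominationNumber (G j):ℝ)/R
        ≤ Real.exp (-(1 - totalDominationNumber (G j)/R)
          - (1 - totalDominationNumber (G j)/R)^2/3) := by linarith
    rwa [div_le_iff₀' hRpos] at h'
  calc ∏ j, (totalDominationNumber (G j) : ℝ)
      ≤ ∏ j : Fin k, (R * Real.exp (-(1 - totalDominationNumber (G j)/R)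
        - (1 - totalDominationNumber (G j)/R)^2/3)) :=
        prod_le_prod (fun j _ => by positivity) (fun j _ => h1 j)
    _ = R^k * Real.exp (∑ j, (-(1 - totalDominationNumber (G j)/R)
        - (1 - totalDominationNumber (G j)/R)^2/3)) := by
        rw [prod_mul_distrib, Real.exp_sum]; simp
    _ ≤ _ := by
      apply mul_le_mul_of_nonneg_left _ (by positivity)
      apply Real.exp_le_exp.2
      have h5 : ∑ j, (-(1 - totalDominationNumber (G j)/R)
            - (1 - totalDominationNumber (G j)/R)^2/3)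
          = -((3*R*∑ j, (R - (totalDominationNumber (G j):ℝ))
            + ∑ j, (R - (totalDominationNumber (G j):ℝ))^2)/(3*R^2)) := by
        rw [mul_sum, ← sum_add_distrib, sum_div, ← sum_neg_distrib]
        apply sum_congr rfl; intro j _; field_simp; ring
      rw [h5, neg_le_neg_iff]
      apply div_le_div_of_nonneg_right _ (by positivity)
      set d : ℝ := ((n:ℝ)+1)/k with hd
      have hkd : (k:ℝ) * d = (n:ℝ)+1 := by rw [hd]; field_simp
      have hRd : (n:ℝ)+1 = R + d := by rw [hR, hd]; field_simp; ring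
      have e1 : ∑ j, ((n:ℝ) + 1 - totalDominationNumber (G j))
          = ∑ j, (R - (totalDominationNumber (G j):ℝ)) + k * d := by
        have : ∀ j, (n:ℝ) + 1 - totalDominationNumber (G j)
            = (R - totalDominationNumber (G j)) + d := fun j => by rw [hRd]; ring
        rw [sum_congr rfl (fun j _ => this j), sum_add_distrib]; simp
      have e2 : ∑ j, ((n:ℝ) + 1 - totalDominationNumber (G j))^2
          = ∑ j, (R - (totalDominationNumber (G j):ℝ))^2
            + 2*d*∑ j, (R - (totalDominationNumber (G j):ℝ)) + k * d^2 := by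
        have : ∀ j, ((n:ℝ) + 1 - totalDominationNumber (G j))^2
            = (R - totalDominationNumber (G j))^2 + 2*d*(R - totalDominationNumber (G j)) + d^2 :=
          fun j => by rw [hRd]; ring
        rw [sum_congr rfl (fun j _ => this j), sum_add_distrib, sum_add_distrib, ← mul_sum]
        simp
      rw [e1] at hsumR
      rw [e2] at hquadR
      set X := ∑ j, (R - (totalDominationNumber (G j):ℝ)) with hX
      set Y := ∑ j, (R - (totalDominationNumber (G j):ℝ))^2 with hY
      have hX2 : -2 ≤ X := by linarith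
      have hco : 0 ≤ 3*R - 2*d := by
        have : d ≤ R := by linarith
        linarith
      have h6 : 0 ≤ (3*R - 2*d)*(X+2) := mul_nonneg hco (by linarith)
      have h8 : ((n:ℝ)+1)^2/k = k*d^2 := by rw [hd]; field_simp
      have h9 : 4*((n:ℝ)+1)/k = 4*d := by rw [hd]; ring
      rw [h8, h9]
      nlinarith

open Classical in
lemma sum_deg_even {n : ℕ} (G : SimpleGraph (Fin n)) :
    Even (∑ v, (univ.filter (fun u => G.Adj v u)).card) := by
  have h := G.sum_degrees_eq_twice_card_edges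
  have e : ∀ v, (univ.filter (fun u => G.Adj v u)).card = G.degree v := by
    intro v; rw [← SimpleGraph.card_neighborFinset_eq_degree]; congr 1; ext u; simp
  rw [sum_congr rfl (fun v _ => e v), h]; exact even_two_mul _

lemma gamma_le_of_odd {n : ℕ} (hodd : Odd n) (G : SimpleGraph (Fin n))
    (h : ∀ v, ∃ u, G.Adj v u) : totalDominationNumber G ≤ n - 1 := by
  classical
  have h0 := gamma_le G h
  by_contra hc
  have h1 : totalDominationNumber G = n := by omega
  have h2 : ∀ v : Fin n, (univ.filter (fun u => G.Adj v u)).card = 1 := by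
    intro v
    have h3 := deg_bound G h v
    obtain ⟨u, hu⟩ := h v
    have h4 : 0 < (univ.filter (fun u => G.Adj v u)).card :=
      card_pos.2 ⟨u, mem_filter.2 ⟨mem_univ _, hu⟩⟩
    omega
  have h5 := sum_deg_even G
  rw [sum_congr rfl (fun v _ => h2 v)] at h5
  simp at h5
  exact (Nat.not_even_iff_odd.2 hodd) h5

/-- `P n k` is the maximum of the product of the total domination numbers over all
`k`-factorizations of `K_n` with minimum degrees at least one. -/
noncomputable def P (n k : ℕ) : ℕ :=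
  sSup {p | ∃ G : Fin k → SimpleGraph (Fin n),
    IsFactorization G ∧ ∏ j, totalDominationNumber (G j) = p}

lemma P_spec (n k : ℕ) : P n k = 0 ∨ ∃ G : Fin k → SimpleGraph (Fin n),
    IsFactorization G ∧ ∏ j, totalDominationNumber (G j) = P n k := by
  by_cases h : {p | ∃ G : Fin k → SimpleGraph (Fin n),
    IsFactorization G ∧ ∏ j, totalDominationNumber (G j) = p}.Nonempty
  · right
    have hb : BddAbove {p | ∃ G : Fin k → SimpleGraph (Fin n),
        IsFactorization G ∧ ∏ j, totalDominationNumber (G j) = p} := by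
      refine ⟨n^k, ?_⟩
      rintro p ⟨G, hG, rfl⟩
      calc ∏ j, totalDominationNumber (G j) ≤ ∏ j : Fin k, n :=
            prod_le_prod (fun j _ => Nat.zero_le _) (fun j _ => gamma_le (G j) (hG.minDeg j))
        _ = n^k := by simp
    exact Nat.sSup_mem h hb
  · left
    rw [Set.not_nonempty_iff_eq_empty] at h
    unfold P
    rw [h]
    simp

/-- Main result. -/
theorem result (n k : ℕ) (hn : 7 ≤ n) (hk : 3 ≤ k) (hkn : k ≤ n - 2) :
    -- the constraint on every factorization
    (∀ G : Fin k → SimpleGraph (Fin n), IsFactorization G →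
      ((n:ℤ) - 1) * (n - k) ≤ ∑ j, ((n:ℤ) + 1 - totalDominationNumber (G j))^2) ∧
    -- no factorization attains the known bound
    (∀ G : Fin k → SimpleGraph (Fin n), IsFactorization G →
      (∏ j, (totalDominationNumber (G j) : ℝ)) ≠ ((1 - 1/(k:ℝ)) * ((n:ℝ)+1))^k) ∧
    (P n k : ℝ) ≠ ((1 - 1/(k:ℝ)) * ((n:ℝ)+1))^k ∧
    -- two improved bounds
    (P n k : ℝ) ≤ ((n:ℝ) + 1)^k * Real.exp (-(2 * (n - 1) * (n - k) / ((n:ℝ)+1)^2)) ∧
    (P n k : ℝ) ≤ ((1 - 1/(k:ℝ)) * ((n:ℝ)+1))^k *
      Real.exp (-((((n:ℝ)-1)*(n-k) - ((n:ℝ)+1)^2/k - 6*((1 - 1/(k:ℝ)) * ((n:ℝ)+1))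
        + 4*((n:ℝ)+1)/k) / (3*((1 - 1/(k:ℝ)) * ((n:ℝ)+1))^2))) ∧
    -- for odd `n`
    (Odd n → P n k ≤ (n - 1)^k) := by
  have hn0 : 0 < n := by omega
  have hk' : (3:ℝ) ≤ k := by exact_mod_cast hk
  have h1 : 0 < 1 - 1/(k:ℝ) := by
    rw [sub_pos, div_lt_one (by linarith)]; linarith
  refine ⟨fun G hG => quad' hn0 G hG, fun G hG => not_attained hn hk (by omega) G hG, ?_, ?_, ?_, ?_⟩
  · rcases P_spec n k with h | ⟨G, hG, h⟩
    · rw [h]
      have h2 : 0 < ((1 - 1/(k:ℝ)) * ((n:ℝ)+1))^k := by positivity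
      rw [Nat.cast_zero]; exact h2.ne
    · rw [← h, Nat.cast_prod]
      exact not_attained hn hk (by omega) G hG
  · rcases P_spec n k with h | ⟨G, hG, h⟩
    · rw [h, Nat.cast_zero]; positivity
    · rw [← h, Nat.cast_prod]
      exact prod_bound hn0 G hG
  · rcases P_spec n k with h | ⟨G, hG, h⟩
    · rw [h, Nat.cast_zero]; positivity
    · rw [← h, Nat.cast_prod]
      exact prod_bound2 hn hk G hG
  · intro hodd
    rcases P_spec n k with h | ⟨G, hG, h⟩
    · rw [h]; exact Nat.zero_le _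
    · rw [← h]
      calc ∏ j, totalDominationNumber (G j) ≤ ∏ j : Fin k, (n - 1) :=
            prod_le_prod (fun j _ => Nat.zero_le _)
              (fun j _ => gamma_le_of_odd hodd (G j) (hG.minDeg j))
        _ = (n - 1)^k := by simp

end Pool.Agent.Results.MP_1ce445_co.ProductBoundImproved
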